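import Mathlib
import Pool.Agent.MP_a5282b_co.Example

set_option autoImplicit false

namespace Pool.Agent.Results.MP_a5282b_co.ThetaThree

open Pool.Agent.MP_a5282b_co

/-- There is a graph with at least two vertices that is `θ_k`-spectral for some `k ≠ 2`
(here `k = 3`). -/
theorem result : ∃ (n : ℕ) (G : SimpleGraph (Fin n)) (θ : ℝ) (k : ℕ),
    2 ≤ n ∧ k ≠ 2 ∧ IsKthEigenvalue G θ k ∧ IsSpectral G θ :=
  ⟨64, codeGraph, 5, 3, by norm_num, by norm_num, isKth, isSpectral⟩

end Pool.Agent.Results.MP_a5282b_co.ThetaThree
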